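import Mathlib

set_option autoImplicit false

namespace Pool.Agent.H.MP_8f98a9_co
open Pointwise

/-- The real vector space `M_ℝ = ℝ^n`. -/
abbrev R (n : ℕ) := Fin n → ℝ

variable {n : ℕ}

/-- The lattice `M = ℤ^n`. -/
def Lat (n : ℕ) : Set (R n) := {x | ∀ i, ∃ z : ℤ, x i = z}

/-- A full-dimensional lattice polytope. -/
def IsLatticePolytope (P : Set (R n)) : Prop :=
  (∃ V : Finset (R n), (V : Set (R n)) ⊆ Lat n ∧ P = convexHull ℝ (V : Set (R n))) ∧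
    affineSpan ℝ P = ⊤

/-- `(P ∩ M) + (rP ∩ M) = (r+1)P ∩ M` for all integers `r ≥ 1`. -/
def IntClosed (P : Set (R n)) : Prop :=
  ∀ r : ℕ, 1 ≤ r → (P ∩ Lat n) + (((r : ℝ) • P) ∩ Lat n) = (((r : ℝ) + 1) • P) ∩ Lat n

/-- `x, y` are adjacent vertices of `P`: the segment `[x, y]` is an edge. -/
def Adj (P : Set (R n)) (x y : R n) : Prop :=
  x ∈ P.extremePoints ℝ ∧ y ∈ P.extremePoints ℝ ∧ x ≠ y ∧ IsExposed ℝ P (segment ℝ x y)

/-- `L(P)`: the least lattice length of an edge. -/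
noncomputable def L (P : Set (R n)) : ℕ :=
  sInf {l | ∃ x y, Adj P x y ∧ l = (segment ℝ x y ∩ Lat n).ncard - 1}

/-- The convex cone generated by `W`. -/
def cone (W : Set (R n)) : Set (R n) :=
  {x | ∃ a : R n →₀ ℝ, (∀ w, 0 ≤ a w) ∧ (a.support : Set (R n)) ⊆ W ∧ x = a.sum fun w c => c • w}

/-- The vertex cone `C(P, u)`. -/
def vcone (P : Set (R n)) (u : R n) : Set (R n) := cone {w | ∃ y, Adj P u y ∧ w = y - u}

/-- Primitive ray generators of the cone `Q`: primitive lattice vectors on extreme rays. -/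
def Ray (Q : Set (R n)) : Set (R n) :=
  {w | w ∈ Q ∧ w ∈ Lat n ∧ w ≠ 0 ∧ (∀ x ∈ Q, ∀ y ∈ Q, x + y = w → ∃ t : ℝ, x = t • w) ∧
    ∀ t : ℝ, 0 < t → t < 1 → t • w ∉ Lat n}

/-- The minimal Hilbert basis of `Q ∩ M`: its irreducible elements. -/
def Hilb (Q : Set (R n)) : Set (R n) :=
  {b | b ∈ Q ∧ b ∈ Lat n ∧ b ≠ 0 ∧
    ∀ x ∈ Q ∩ Lat n, ∀ y ∈ Q ∩ Lat n, x + y = b → x = 0 ∨ y = 0}

/-- `ht(u)`. -/
noncomputable def ht (Q : Set (R n)) (u : R n) : ℝ :=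
  sSup {t | ∃ a : R n →₀ ℝ, (∀ w, 0 ≤ a w) ∧ (a.support : Set (R n)) ⊆ Ray Q ∧
    u = a.sum (fun w c => c • w) ∧ t = a.sum fun _ c => c}

/-- `ord(u)`. -/
noncomputable def ord (Q : Set (R n)) (u : R n) : ℕ :=
  sSup {t | ∃ a : R n →₀ ℕ, (a.support : Set (R n)) ⊆ Hilb Q ∧
    u = a.sum (fun w c => c • w) ∧ t = a.sum fun _ c => c}

/-- `S_Q`. -/
def box (Q : Set (R n)) : Set (R n) :=
  {x | ∃ a : R n →₀ ℝ, (∀ w, 0 ≤ a w ∧ a w < 1) ∧ (a.support : Set (R n)) ⊆ Ray Q ∧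
    x = a.sum fun w c => c • w}

/-- `Γ_Q`. -/
noncomputable def GammaCone (Q : Set (R n)) : ℝ :=
  sSup {d | ∃ u ∈ box Q ∩ Lat n, d = ht Q u - (ord Q u : ℝ)}

/-- `Γ_P`. -/
noncomputable def Gamma (P : Set (R n)) : ℝ :=
  sSup {g | ∃ u ∈ P.extremePoints ℝ, g = GammaCone (vcone P u)}

end Pool.Agent.H.MP_8f98a9_co
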