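import Mathlib
import Pool.Agent.H.MP_8f98a9_co.D

set_option autoImplicit false

namespace Pool.Agent.H.MP_8f98a9_co
open Set Pointwise

def emb (x : Fin 3 → ℤ) : R 3 := fun i => (x i : ℝ)

def dot (l x : Fin 3 → ℤ) : ℤ := l 0 * x 0 + l 1 * x 1 + l 2 * x 2

noncomputable def lin (l : Fin 3 → ℤ) : R 3 →ₗ[ℝ] ℝ :=
  (l 0 : ℝ) • LinearMap.proj 0 + (l 1 : ℝ) • LinearMap.proj 1 + (l 2 : ℝ) • LinearMap.proj 2

lemma lin_emb (l x : Fin 3 → ℤ) : lin l (emb x) = (dot l x : ℝ) := by simp [lin, emb, dot]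

lemma lat_iff (u : R 3) : u ∈ Lat 3 ↔ ∃ x, u = emb x := by
  constructor
  · intro h
    choose z hz using h
    exact ⟨z, funext hz⟩
  · rintro ⟨x, rfl⟩ i
    exact ⟨x i, rfl⟩

lemma emb_lat (x : Fin 3 → ℤ) : emb x ∈ Lat 3 := (lat_iff _).2 ⟨x, rfl⟩

lemma emb_inj : Function.Injective emb := by
  intro x y h
  funext i
  exact Int.cast_injective (α := ℝ) (congrFun h i)

lemma emb_zero : emb 0 = 0 := by funext i; simp [emb]

lemma cone_ind (W : Set (R 3)) (f : R 3 →ₗ[ℝ] ℝ) (h : ∀ w ∈ W, 0 ≤ f w) :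
    ∀ x ∈ cone W, 0 ≤ f x := by
  rintro x ⟨a, h0, h1, rfl⟩
  rw [Finsupp.sum, map_sum]
  exact Finset.sum_nonneg fun w hw => by
    rw [map_smul]; exact mul_nonneg (h0 w) (h w (h1 hw))

lemma sub_cone (W : Set (R 3)) : W ⊆ cone W := by
  classical
  intro w hw
  refine ⟨Finsupp.single w 1, fun x => ?_, ?_, by simp⟩
  · rw [Finsupp.single_apply]; split_ifs <;> norm_num
  · intro x hx
    rw [Finsupp.support_single _ one_ne_zero] at hx
    simpa [Finset.mem_singleton.1 hx] using hw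

lemma fin (Q : Set (R 3)) (l w1 w2 w3 x : Fin 3 → ℤ) (n1 n2 n3 : ℤ) (p1 : 0 ≤ n1) (p2 : 0 ≤ n2)
    (p3 : 0 ≤ n3) (m1 : emb w1 ∈ Q) (m2 : emb w2 ∈ Q) (m3 : emb w3 ∈ Q)
    (e : dot l w1 = 1 ∧ dot l w2 = 1 ∧ dot l w3 = 1)
    (pos : ∀ y, emb y ∈ Q → y ≠ 0 → 1 ≤ dot l y)
    (hx : ∀ i, x i = n1 * w1 i + n2 * w2 i + n3 * w3 i) :
    ht Q (emb x) ≤ (ord Q (emb x) : ℝ) := by
  classical
  have pos' : ∀ w, w ∈ Q → w ∈ Lat 3 → w ≠ 0 → 1 ≤ lin l w := by
    intro w h1 h2 h3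
    obtain ⟨y, rfl⟩ := (lat_iff w).1 h2
    rw [lin_emb]
    exact_mod_cast pos y h1 fun e => h3 (by rw [e, emb_zero])
  have hb : ∀ w, emb w ∈ Q → dot l w = 1 → emb w ∈ Hilb Q := by
    intro w hw h1
    refine ⟨hw, emb_lat w, fun e => ?_, fun a ha b hb' e => ?_⟩
    · have := lin_emb l w
      rw [e, h1] at this
      simp at this
    · by_contra hc
      push Not at hc
      have h2 := pos' a ha.1 ha.2 hc.1
      have h3 := pos' b hb'.1 hb'.2 hc.2
      have h4 := lin_emb l w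
      rw [← e, map_add, h1] at h4
      push_cast at h4
      linarith
  lift n1 to ℕ using p1
  lift n2 to ℕ using p2
  lift n3 to ℕ using p3
  have val : lin l (emb x) = ((n1 + n2 + n3 : ℕ) : ℝ) := by
    rw [lin_emb]
    have : dot l x = n1 + n2 + n3 := by
      obtain ⟨e1, e2, e3⟩ := e
      simp only [dot, hx] at *
      linear_combination (n1 : ℤ) * e1 + (n2 : ℤ) * e2 + (n3 : ℤ) * e3
    rw [this]; push_cast; ring
  have h1 : ht Q (emb x) ≤ ((n1 + n2 + n3 : ℕ) : ℝ) := by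
    apply Real.sSup_le _ (Nat.cast_nonneg _)
    rintro t ⟨a, a0, a1, a2, rfl⟩
    rw [← val, a2, Finsupp.sum, Finsupp.sum, map_sum]
    refine Finset.sum_le_sum fun w hw => ?_
    have := a1 hw
    rw [map_smul, smul_eq_mul]
    exact le_mul_of_one_le_right (a0 w) (pos' w this.1 this.2.1 this.2.2.1)
  refine h1.trans (Nat.cast_le.2 (le_csSup ⟨n1 + n2 + n3, ?_⟩ ?_))
  · rintro t ⟨a, a1, a2, rfl⟩
    rw [← Nat.cast_le (α := ℝ), ← val, a2, Finsupp.sum, Finsupp.sum, map_sum, Nat.cast_sum]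
    refine Finset.sum_le_sum fun w hw => ?_
    have := a1 hw
    rw [map_nsmul, nsmul_eq_mul]
    exact le_mul_of_one_le_right (Nat.cast_nonneg _) (pos' w this.1 this.2.1 this.2.2.1)
  · refine ⟨Finsupp.single (emb w1) n1 + Finsupp.single (emb w2) n2 + Finsupp.single (emb w3) n3,
      ?_, ?_, ?_⟩
    · intro w hw
      have h2 := Finsupp.support_add hw
      rcases Finset.mem_union.1 h2 with h3 | h3
      · rcases Finset.mem_union.1 (Finsupp.support_add h3) with h4 | h4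
        · rw [Finset.mem_singleton.1 (Finsupp.support_single_subset h4)]; exact hb _ m1 e.1
        · rw [Finset.mem_singleton.1 (Finsupp.support_single_subset h4)]; exact hb _ m2 e.2.1
      · rw [Finset.mem_singleton.1 (Finsupp.support_single_subset h3)]; exact hb _ m3 e.2.2
    · rw [Finsupp.sum_add_index' (by simp) (by simp [add_smul]),
        Finsupp.sum_add_index' (by simp) (by simp [add_smul])]
      funext i
      simp [emb, hx]
    · rw [Finsupp.sum_add_index' (by simp) (by simp), Finsupp.sum_add_index' (by simp) (by simp)]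
      simp

lemma face_eq {k : ℕ} (v : Fin k → R 3) (f : R 3 →ₗ[ℝ] ℝ) (c : ℝ) (h : ∀ i, f (v i) ≤ c)
    (S : Set (Fin k)) (hS : ∀ i, f (v i) = c ↔ i ∈ S) (ne : S.Nonempty) :
    IsExposed ℝ (convexHull ℝ (range v)) (convexHull ℝ (v '' S)) := by
  classical
  intro _
  have le : ∀ x ∈ convexHull ℝ (range v), f x ≤ c := fun x hx =>
    convexHull_min (t := {x | f x ≤ c}) (by rintro _ ⟨i, rfl⟩; exact h i)
      (convex_halfSpace_le f.isLinear c) hx
  refine ⟨LinearMap.toContinuousLinearMap f, Subset.antisymm ?_ ?_⟩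
  · intro x hx
    have e : f x = c := convexHull_min (t := {x | f x = c})
      (by rintro _ ⟨i, hi, rfl⟩; exact (hS i).2 hi) (convex_hyperplane f.isLinear c) hx
    exact ⟨convexHull_mono (image_subset_range _ _) hx, fun y hy => by
      simpa [e] using le y hy⟩
  · rintro x ⟨hx, hm⟩
    obtain ⟨i0, hi0⟩ := ne
    have hc : f x = c := le_antisymm (le x hx) (by
      have := hm (v i0) (subset_convexHull ℝ _ ⟨i0, rfl⟩)
      simpa [(hS i0).2 hi0] using this)
    rw [convexHull_range_eq_exists_affineCombination] at hx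
    obtain ⟨s, w, hw0, hw1, rfl⟩ := hx
    rw [Finset.affineCombination_eq_linear_combination _ _ _ hw1] at hc ⊢
    have z : ∑ i ∈ s, w i * (c - f (v i)) = 0 := by
      simp only [mul_sub, Finset.sum_sub_distrib, ← Finset.sum_mul, hw1, one_mul]
      rw [← hc]; simp [map_sum]
    rw [Finset.sum_eq_zero_iff_of_nonneg
      (fun i hi => mul_nonneg (hw0 i hi) (sub_nonneg.2 (h i)))] at z
    rw [← Finset.sum_filter_of_ne (p := fun i => w i ≠ 0) (fun i _ hi e => hi (by simp [e]))]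
    apply (convex_convexHull ℝ _).sum_mem (fun i hi => hw0 i (Finset.mem_filter.1 hi).1)
    · rw [Finset.sum_filter_ne_zero, hw1]
    · intro i hi
      obtain ⟨h1, h2⟩ := Finset.mem_filter.1 hi
      have := (mul_eq_zero.1 (z i h1)).resolve_left h2
      exact subset_convexHull ℝ _ ⟨i, (hS i).1 (by linarith), rfl⟩

def V : Fin 8 → Fin 3 → ℤ :=
  ![![0, 0, 0], ![0, 0, 1], ![1, 0, 0], ![1, 0, 1], ![0, 1, 0], ![0, 1, 1], ![1, 1, 4], ![1, 1, 5]]

def P : Set (R 3) := convexHull ℝ (range fun i => emb (V i))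

def Q (i : Fin 8) : Set (R 3) := vcone P (emb (V i))

def Cert (i j : Fin 8) (l : Fin 3 → ℤ) : Prop :=
  ∀ k, dot l (V k) ≤ dot l (V i) ∧ (dot l (V k) = dot l (V i) ↔ k = i ∨ k = j)

instance (i j : Fin 8) (l : Fin 3 → ℤ) : Decidable (Cert i j l) := by
  unfold Cert; infer_instance

lemma expo (i j : Fin 8) (l : Fin 3 → ℤ) (h : Cert i j l) :
    IsExposed ℝ P (segment ℝ (emb (V i)) (emb (V j))) := by
  have := face_eq (fun i => emb (V i)) (lin l) (dot l (V i))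
    (fun k => by rw [lin_emb]; exact_mod_cast (h k).1) {i, j}
    (fun k => by rw [lin_emb, Int.cast_inj]; exact (h k).2) ⟨i, by simp⟩
  rwa [image_pair, convexHull_pair] at this

def X : Fin 8 → Fin 3 → ℤ :=
  ![![-1, -1, -1], ![-3, -3, 1], ![2, -1, -1], ![1, -5, 1], ![-1, 2, -1], ![-5, 1, 1],
    ![5, 5, -1], ![0, 0, 1]]

lemma extr (i : Fin 8) : emb (V i) ∈ P.extremePoints ℝ := by
  have h : ∀ i, Cert i i (X i) := by decide
  have := (expo i i _ (h i)).isExtreme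
  rwa [segment_same, isExtreme_singleton] at this

lemma V_inj : Function.Injective V := by decide

lemma adj (i j : Fin 8) (l : Fin 3 → ℤ) (h : Cert i j l) (ij : i ≠ j) :
    Adj P (emb (V i)) (emb (V j)) :=
  ⟨extr i, extr j, fun e => ij (V_inj (emb_inj e)), expo i j l h⟩

lemma inQ (i j : Fin 8) (l w : Fin 3 → ℤ) (h : Cert i j l ∧ i ≠ j ∧ ∀ a, w a = V j a - V i a) :
    emb w ∈ Q i :=
  sub_cone _ ⟨_, adj i j l h.1 h.2.1, by funext a; simp [emb, h.2.2 a]⟩

lemma P_le (l : Fin 3 → ℤ) (c : ℤ) (h : ∀ k, c ≤ dot l (V k)) : ∀ y ∈ P, (c : ℝ) ≤ lin l y :=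
  fun y hy => convexHull_min (t := {x | (c : ℝ) ≤ lin l x})
    (by rintro _ ⟨k, rfl⟩; show _ ≤ lin l (emb (V k)); rw [lin_emb]; exact_mod_cast h k)
    (convex_halfSpace_ge (lin l).isLinear _) hy

lemma ineq (i : Fin 8) (l : Fin 3 → ℤ) (h : ∀ k, dot l (V i) ≤ dot l (V k)) (x : Fin 3 → ℤ)
    (hx : emb x ∈ Q i) : 0 ≤ dot l x := by
  have := cone_ind _ (lin l) (by
    rintro w ⟨y, hy, rfl⟩
    have := P_le l _ h y (extremePoints_subset hy.2.1)
    rw [map_sub, lin_emb]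
    linarith) _ hx
  rw [lin_emb] at this
  exact_mod_cast this

lemma nz (y : Fin 3 → ℤ) (h : y ≠ 0) : y 0 ≠ 0 ∨ y 1 ≠ 0 ∨ y 2 ≠ 0 := by
  by_contra hc
  push Not at hc
  apply h
  funext i
  fin_cases i
  exacts [hc.1, hc.2.1, hc.2.2]

end Pool.Agent.H.MP_8f98a9_co
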