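import Mathlib
import Pool.Agent.H.MP_8f98a9_co.A

set_option autoImplicit false

namespace Pool.Agent.H.MP_8f98a9_co
open Set Pointwise

lemma v0 (x : Fin 3 → ℤ) (hx : emb x ∈ Q 0) : ht (Q 0) (emb x) ≤ (ord (Q 0) (emb x) : ℝ) := by
  have I : ∀ y : Fin 3 → ℤ, emb y ∈ Q 0 → 0 ≤ ((1) * y 0 + (0) * y 1 + (0) * y 2) ∧
      0 ≤ ((0) * y 0 + (1) * y 1 + (0) * y 2) ∧
      0 ≤ ((0) * y 0 + (0) * y 1 + (1) * y 2) := fun y hy =>
    ⟨by simpa [dot] using ineq 0 ![1, 0, 0] (by decide) y hy,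
     by simpa [dot] using ineq 0 ![0, 1, 0] (by decide) y hy,
     by simpa [dot] using ineq 0 ![0, 0, 1] (by decide) y hy⟩
  have m0 := inQ 0 1 ![-1, -1, 0] ![0, 0, 1] (by decide)
  have m1 := inQ 0 2 ![0, -1, -1] ![1, 0, 0] (by decide)
  have m2 := inQ 0 4 ![-1, 0, -1] ![0, 1, 0] (by decide)
  have hI := I x hx
  refine fin _ ![1, 1, 1] _ _ _ x ((0) * x 0 + (0) * x 1 + (1) * x 2) ((1) * x 0 + (0) * x 1 + (0) * x 2)
    ((0) * x 0 + (1) * x 1 + (0) * x 2) (by omega) (by omega) (by omega) m0 m1 m2 (by decide)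
    (fun y hy h0 => ?_) (fun a => by fin_cases a <;> simp <;> ring)
  have h1 := I y hy
  have h2 := nz y h0
  show 1 ≤ ((1) * y 0 + (1) * y 1 + (1) * y 2)
  omega

lemma v1 (x : Fin 3 → ℤ) (hx : emb x ∈ Q 1) : ht (Q 1) (emb x) ≤ (ord (Q 1) (emb x) : ℝ) := by
  have I : ∀ y : Fin 3 → ℤ, emb y ∈ Q 1 → 0 ≤ ((1) * y 0 + (0) * y 1 + (0) * y 2) ∧
      0 ≤ ((0) * y 0 + (1) * y 1 + (0) * y 2) ∧
      0 ≤ ((0) * y 0 + (4) * y 1 + (-1) * y 2) ∧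
      0 ≤ ((4) * y 0 + (0) * y 1 + (-1) * y 2) := fun y hy =>
    ⟨by simpa [dot] using ineq 1 ![1, 0, 0] (by decide) y hy,
     by simpa [dot] using ineq 1 ![0, 1, 0] (by decide) y hy,
     by simpa [dot] using ineq 1 ![0, 4, -1] (by decide) y hy,
     by simpa [dot] using ineq 1 ![4, 0, -1] (by decide) y hy⟩
  have m0 := inQ 1 0 ![-1, -1, 0] ![0, 0, -1] (by decide)
  have m1 := inQ 1 3 ![0, -5, 1] ![1, 0, 0] (by decide)
  have m2 := inQ 1 5 ![-5, 0, 1] ![0, 1, 0] (by decide)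
  have m3 := inQ 1 7 ![-4, -4, 2] ![1, 1, 4] (by decide)
  have hI := I x hx
  by_cases h : 0 ≤ ((1) * x 0 + (-1) * x 1 + (0) * x 2)
  · refine fin _ ![1, 4, -1] _ _ _ x ((0) * x 0 + (4) * x 1 + (-1) * x 2) ((1) * x 0 + (-1) * x 1 + (0) * x 2)
      ((0) * x 0 + (1) * x 1 + (0) * x 2) (by omega) (by omega) (by omega) m0 m1 m3 (by decide)
      (fun y hy h0 => ?_) (fun a => by fin_cases a <;> simp <;> ring)
    have h1 := I y hy
    have h2 := nz y h0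
    show 1 ≤ ((1) * y 0 + (4) * y 1 + (-1) * y 2)
    omega
  · refine fin _ ![4, 1, -1] _ _ _ x ((4) * x 0 + (0) * x 1 + (-1) * x 2) ((-1) * x 0 + (1) * x 1 + (0) * x 2)
      ((1) * x 0 + (0) * x 1 + (0) * x 2) (by omega) (by omega) (by omega) m0 m2 m3 (by decide)
      (fun y hy h0 => ?_) (fun a => by fin_cases a <;> simp <;> ring)
    have h1 := I y hy
    have h2 := nz y h0
    show 1 ≤ ((4) * y 0 + (1) * y 1 + (-1) * y 2)
    omega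

lemma v2 (x : Fin 3 → ℤ) (hx : emb x ∈ Q 2) : ht (Q 2) (emb x) ≤ (ord (Q 2) (emb x) : ℝ) := by
  have I : ∀ y : Fin 3 → ℤ, emb y ∈ Q 2 → 0 ≤ ((0) * y 0 + (1) * y 1 + (0) * y 2) ∧
      0 ≤ ((-1) * y 0 + (0) * y 1 + (0) * y 2) ∧
      0 ≤ ((0) * y 0 + (0) * y 1 + (1) * y 2) ∧
      0 ≤ ((-4) * y 0 + (-4) * y 1 + (1) * y 2) := fun y hy =>
    ⟨by simpa [dot] using ineq 2 ![0, 1, 0] (by decide) y hy,
     by simpa [dot] using ineq 2 ![-1, 0, 0] (by decide) y hy,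
     by simpa [dot] using ineq 2 ![0, 0, 1] (by decide) y hy,
     by simpa [dot] using ineq 2 ![-4, -4, 1] (by decide) y hy⟩
  have m0 := inQ 2 0 ![0, -1, -1] ![-1, 0, 0] (by decide)
  have m1 := inQ 2 3 ![1, -1, 0] ![0, 0, 1] (by decide)
  have m2 := inQ 2 4 ![4, 4, -2] ![-1, 1, 0] (by decide)
  have m3 := inQ 2 6 ![5, 4, -1] ![0, 1, 4] (by decide)
  have hI := I x hx
  by_cases h : 0 ≤ ((-1) * x 0 + (-1) * x 1 + (0) * x 2)
  · refine fin _ ![-1, 0, 1] _ _ _ x ((-1) * x 0 + (-1) * x 1 + (0) * x 2) ((0) * x 0 + (0) * x 1 + (1) * x 2)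
      ((0) * x 0 + (1) * x 1 + (0) * x 2) (by omega) (by omega) (by omega) m0 m1 m2 (by decide)
      (fun y hy h0 => ?_) (fun a => by fin_cases a <;> simp <;> ring)
    have h1 := I y hy
    have h2 := nz y h0
    show 1 ≤ ((-1) * y 0 + (0) * y 1 + (1) * y 2)
    omega
  · refine fin _ ![-4, -3, 1] _ _ _ x ((-4) * x 0 + (-4) * x 1 + (1) * x 2) ((-1) * x 0 + (0) * x 1 + (0) * x 2)
      ((1) * x 0 + (1) * x 1 + (0) * x 2) (by omega) (by omega) (by omega) m1 m2 m3 (by decide)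
      (fun y hy h0 => ?_) (fun a => by fin_cases a <;> simp <;> ring)
    have h1 := I y hy
    have h2 := nz y h0
    show 1 ≤ ((-4) * y 0 + (-3) * y 1 + (1) * y 2)
    omega

lemma v3 (x : Fin 3 → ℤ) (hx : emb x ∈ Q 3) : ht (Q 3) (emb x) ≤ (ord (Q 3) (emb x) : ℝ) := by
  have I : ∀ y : Fin 3 → ℤ, emb y ∈ Q 3 → 0 ≤ ((0) * y 0 + (1) * y 1 + (0) * y 2) ∧
      0 ≤ ((-1) * y 0 + (0) * y 1 + (0) * y 2) ∧
      0 ≤ ((0) * y 0 + (4) * y 1 + (-1) * y 2) := fun y hy =>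
    ⟨by simpa [dot] using ineq 3 ![0, 1, 0] (by decide) y hy,
     by simpa [dot] using ineq 3 ![-1, 0, 0] (by decide) y hy,
     by simpa [dot] using ineq 3 ![0, 4, -1] (by decide) y hy⟩
  have m0 := inQ 3 1 ![0, -5, 1] ![-1, 0, 0] (by decide)
  have m1 := inQ 3 2 ![1, -1, 0] ![0, 0, -1] (by decide)
  have m2 := inQ 3 7 ![1, -4, 1] ![0, 1, 4] (by decide)
  have hI := I x hx
  refine fin _ ![-1, 5, -1] _ _ _ x ((-1) * x 0 + (0) * x 1 + (0) * x 2) ((0) * x 0 + (4) * x 1 + (-1) * x 2)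
    ((0) * x 0 + (1) * x 1 + (0) * x 2) (by omega) (by omega) (by omega) m0 m1 m2 (by decide)
    (fun y hy h0 => ?_) (fun a => by fin_cases a <;> simp <;> ring)
  have h1 := I y hy
  have h2 := nz y h0
  show 1 ≤ ((-1) * y 0 + (5) * y 1 + (-1) * y 2)
  omega

lemma v4 (x : Fin 3 → ℤ) (hx : emb x ∈ Q 4) : ht (Q 4) (emb x) ≤ (ord (Q 4) (emb x) : ℝ) := by
  have I : ∀ y : Fin 3 → ℤ, emb y ∈ Q 4 → 0 ≤ ((1) * y 0 + (0) * y 1 + (0) * y 2) ∧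
      0 ≤ ((0) * y 0 + (-1) * y 1 + (0) * y 2) ∧
      0 ≤ ((0) * y 0 + (0) * y 1 + (1) * y 2) ∧
      0 ≤ ((-4) * y 0 + (-4) * y 1 + (1) * y 2) := fun y hy =>
    ⟨by simpa [dot] using ineq 4 ![1, 0, 0] (by decide) y hy,
     by simpa [dot] using ineq 4 ![0, -1, 0] (by decide) y hy,
     by simpa [dot] using ineq 4 ![0, 0, 1] (by decide) y hy,
     by simpa [dot] using ineq 4 ![-4, -4, 1] (by decide) y hy⟩
  have m0 := inQ 4 0 ![-1, 0, -1] ![0, -1, 0] (by decide)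
  have m1 := inQ 4 2 ![4, 4, -2] ![1, -1, 0] (by decide)
  have m2 := inQ 4 5 ![-1, 1, 0] ![0, 0, 1] (by decide)
  have m3 := inQ 4 6 ![4, 5, -1] ![1, 0, 4] (by decide)
  have hI := I x hx
  by_cases h : 0 ≤ ((-1) * x 0 + (-1) * x 1 + (0) * x 2)
  · refine fin _ ![0, -1, 1] _ _ _ x ((-1) * x 0 + (-1) * x 1 + (0) * x 2) ((1) * x 0 + (0) * x 1 + (0) * x 2)
      ((0) * x 0 + (0) * x 1 + (1) * x 2) (by omega) (by omega) (by omega) m0 m1 m2 (by decide)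
      (fun y hy h0 => ?_) (fun a => by fin_cases a <;> simp <;> ring)
    have h1 := I y hy
    have h2 := nz y h0
    show 1 ≤ ((0) * y 0 + (-1) * y 1 + (1) * y 2)
    omega
  · refine fin _ ![-3, -4, 1] _ _ _ x ((0) * x 0 + (-1) * x 1 + (0) * x 2) ((-4) * x 0 + (-4) * x 1 + (1) * x 2)
      ((1) * x 0 + (1) * x 1 + (0) * x 2) (by omega) (by omega) (by omega) m1 m2 m3 (by decide)
      (fun y hy h0 => ?_) (fun a => by fin_cases a <;> simp <;> ring)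
    have h1 := I y hy
    have h2 := nz y h0
    show 1 ≤ ((-3) * y 0 + (-4) * y 1 + (1) * y 2)
    omega

lemma v5 (x : Fin 3 → ℤ) (hx : emb x ∈ Q 5) : ht (Q 5) (emb x) ≤ (ord (Q 5) (emb x) : ℝ) := by
  have I : ∀ y : Fin 3 → ℤ, emb y ∈ Q 5 → 0 ≤ ((1) * y 0 + (0) * y 1 + (0) * y 2) ∧
      0 ≤ ((0) * y 0 + (-1) * y 1 + (0) * y 2) ∧
      0 ≤ ((4) * y 0 + (0) * y 1 + (-1) * y 2) := fun y hy =>
    ⟨by simpa [dot] using ineq 5 ![1, 0, 0] (by decide) y hy,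
     by simpa [dot] using ineq 5 ![0, -1, 0] (by decide) y hy,
     by simpa [dot] using ineq 5 ![4, 0, -1] (by decide) y hy⟩
  have m0 := inQ 5 1 ![-5, 0, 1] ![0, -1, 0] (by decide)
  have m1 := inQ 5 4 ![-1, 1, 0] ![0, 0, -1] (by decide)
  have m2 := inQ 5 7 ![-4, 1, 1] ![1, 0, 4] (by decide)
  have hI := I x hx
  refine fin _ ![5, -1, -1] _ _ _ x ((0) * x 0 + (-1) * x 1 + (0) * x 2) ((4) * x 0 + (0) * x 1 + (-1) * x 2)
    ((1) * x 0 + (0) * x 1 + (0) * x 2) (by omega) (by omega) (by omega) m0 m1 m2 (by decide)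
    (fun y hy h0 => ?_) (fun a => by fin_cases a <;> simp <;> ring)
  have h1 := I y hy
  have h2 := nz y h0
  show 1 ≤ ((5) * y 0 + (-1) * y 1 + (-1) * y 2)
  omega

lemma v6 (x : Fin 3 → ℤ) (hx : emb x ∈ Q 6) : ht (Q 6) (emb x) ≤ (ord (Q 6) (emb x) : ℝ) := by
  have I : ∀ y : Fin 3 → ℤ, emb y ∈ Q 6 → 0 ≤ ((-1) * y 0 + (0) * y 1 + (0) * y 2) ∧
      0 ≤ ((0) * y 0 + (-1) * y 1 + (0) * y 2) ∧
      0 ≤ ((-4) * y 0 + (-4) * y 1 + (1) * y 2) := fun y hy =>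
    ⟨by simpa [dot] using ineq 6 ![-1, 0, 0] (by decide) y hy,
     by simpa [dot] using ineq 6 ![0, -1, 0] (by decide) y hy,
     by simpa [dot] using ineq 6 ![-4, -4, 1] (by decide) y hy⟩
  have m0 := inQ 6 2 ![5, 4, -1] ![0, -1, -4] (by decide)
  have m1 := inQ 6 4 ![4, 5, -1] ![-1, 0, -4] (by decide)
  have m2 := inQ 6 7 ![1, 1, 0] ![0, 0, 1] (by decide)
  have hI := I x hx
  refine fin _ ![-5, -5, 1] _ _ _ x ((0) * x 0 + (-1) * x 1 + (0) * x 2) ((-1) * x 0 + (0) * x 1 + (0) * x 2)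
    ((-4) * x 0 + (-4) * x 1 + (1) * x 2) (by omega) (by omega) (by omega) m0 m1 m2 (by decide)
    (fun y hy h0 => ?_) (fun a => by fin_cases a <;> simp <;> ring)
  have h1 := I y hy
  have h2 := nz y h0
  show 1 ≤ ((-5) * y 0 + (-5) * y 1 + (1) * y 2)
  omega

lemma v7 (x : Fin 3 → ℤ) (hx : emb x ∈ Q 7) : ht (Q 7) (emb x) ≤ (ord (Q 7) (emb x) : ℝ) := by
  have I : ∀ y : Fin 3 → ℤ, emb y ∈ Q 7 → 0 ≤ ((-1) * y 0 + (0) * y 1 + (0) * y 2) ∧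
      0 ≤ ((0) * y 0 + (-1) * y 1 + (0) * y 2) ∧
      0 ≤ ((0) * y 0 + (4) * y 1 + (-1) * y 2) ∧
      0 ≤ ((4) * y 0 + (0) * y 1 + (-1) * y 2) := fun y hy =>
    ⟨by simpa [dot] using ineq 7 ![-1, 0, 0] (by decide) y hy,
     by simpa [dot] using ineq 7 ![0, -1, 0] (by decide) y hy,
     by simpa [dot] using ineq 7 ![0, 4, -1] (by decide) y hy,
     by simpa [dot] using ineq 7 ![4, 0, -1] (by decide) y hy⟩
  have m0 := inQ 7 1 ![-4, -4, 2] ![-1, -1, -4] (by decide)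
  have m1 := inQ 7 3 ![1, -4, 1] ![0, -1, -4] (by decide)
  have m2 := inQ 7 5 ![-4, 1, 1] ![-1, 0, -4] (by decide)
  have m3 := inQ 7 6 ![1, 1, 0] ![0, 0, -1] (by decide)
  have hI := I x hx
  by_cases h : 0 ≤ ((1) * x 0 + (-1) * x 1 + (0) * x 2)
  · refine fin _ ![0, 3, -1] _ _ _ x ((-1) * x 0 + (0) * x 1 + (0) * x 2) ((1) * x 0 + (-1) * x 1 + (0) * x 2)
      ((0) * x 0 + (4) * x 1 + (-1) * x 2) (by omega) (by omega) (by omega) m0 m1 m3 (by decide)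
      (fun y hy h0 => ?_) (fun a => by fin_cases a <;> simp <;> ring)
    have h1 := I y hy
    have h2 := nz y h0
    show 1 ≤ ((0) * y 0 + (3) * y 1 + (-1) * y 2)
    omega
  · refine fin _ ![3, 0, -1] _ _ _ x ((0) * x 0 + (-1) * x 1 + (0) * x 2) ((-1) * x 0 + (1) * x 1 + (0) * x 2)
      ((4) * x 0 + (0) * x 1 + (-1) * x 2) (by omega) (by omega) (by omega) m0 m2 m3 (by decide)
      (fun y hy h0 => ?_) (fun a => by fin_cases a <;> simp <;> ring)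
    have h1 := I y hy
    have h2 := nz y h0
    show 1 ≤ ((3) * y 0 + (0) * y 1 + (-1) * y 2)
    omega

lemma vert (u : R 3) (h : u ∈ P.extremePoints ℝ) : ∃ i, u = emb (V i) := by
  obtain ⟨i, hi⟩ := extremePoints_convexHull_subset h
  exact ⟨i, hi.symm⟩

lemma box_sub (W : Set (R 3)) : box (cone W) ⊆ cone W := by
  classical
  have add : ∀ x ∈ cone W, ∀ y ∈ cone W, x + y ∈ cone W := by
    rintro _ ⟨a, a0, a1, rfl⟩ _ ⟨b, b0, b1, rfl⟩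
    refine ⟨a + b, fun w => add_nonneg (a0 w) (b0 w), fun w hw => ?_,
      (Finsupp.sum_add_index' (by simp) (by simp [add_smul])).symm⟩
    rcases Finset.mem_union.1 (Finsupp.support_add hw) with h | h
    exacts [a1 h, b1 h]
  have sm : ∀ c : ℝ, 0 ≤ c → ∀ x ∈ cone W, c • x ∈ cone W := by
    rintro c hc _ ⟨a, a0, a1, rfl⟩
    refine ⟨c • a, fun w => mul_nonneg hc (a0 w), fun w hw => a1 (Finsupp.support_smul hw), ?_⟩
    rw [Finsupp.sum_smul_index (by simp), Finsupp.smul_sum]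
    simp [smul_smul]
  rintro _ ⟨a, a0, a1, rfl⟩
  exact Finset.sum_induction _ (· ∈ cone W) (fun x y hx hy => add x hx y hy)
    ⟨0, by simp, by simp, by simp⟩ fun w hw => sm _ (a0 w).1 _ (a1 hw).1

lemma gamma : Gamma P ≤ 0 := by
  apply Real.sSup_nonpos
  rintro _ ⟨u, hu, rfl⟩
  obtain ⟨i, rfl⟩ := vert u hu
  apply Real.sSup_nonpos
  rintro _ ⟨u, ⟨h1, h2⟩, rfl⟩
  obtain ⟨x, rfl⟩ := (lat_iff u).1 h2
  have h : emb x ∈ Q i := box_sub _ h1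
  rw [sub_nonpos]
  fin_cases i
  exacts [v0 x h, v1 x h, v2 x h, v3 x h, v4 x h, v5 x h, v6 x h, v7 x h]

lemma bounds (x : Fin 3 → ℤ) (h : emb x ∈ P) : 0 ≤ x 0 ∧ 0 ≤ x 1 ∧ x 0 ≤ 1 ∧ x 1 ≤ 1 ∧ 0 ≤ x 2 ∧
    4 * x 0 + 4 * x 1 ≤ x 2 + 4 ∧ x 2 ≤ 1 + 4 * x 0 ∧ x 2 ≤ 1 + 4 * x 1 := by
  have k : ∀ (l : Fin 3 → ℤ) (c : ℤ), (∀ k, c ≤ dot l (V k)) → c ≤ dot l x := by
    intro l c hl
    have := P_le l c hl _ h
    rw [lin_emb] at this
    exact_mod_cast this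
  have h0 : (0 : ℤ) ≤ ((1) * x 0 + (0) * x 1 + (0) * x 2) := k ![1, 0, 0] (0) (by decide)
  have h1 : (0 : ℤ) ≤ ((0) * x 0 + (1) * x 1 + (0) * x 2) := k ![0, 1, 0] (0) (by decide)
  have h2 : (-1 : ℤ) ≤ ((-1) * x 0 + (0) * x 1 + (0) * x 2) := k ![-1, 0, 0] (-1) (by decide)
  have h3 : (-1 : ℤ) ≤ ((0) * x 0 + (-1) * x 1 + (0) * x 2) := k ![0, -1, 0] (-1) (by decide)
  have h4 : (0 : ℤ) ≤ ((0) * x 0 + (0) * x 1 + (1) * x 2) := k ![0, 0, 1] (0) (by decide)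
  have h5 : (-4 : ℤ) ≤ ((-4) * x 0 + (-4) * x 1 + (1) * x 2) := k ![-4, -4, 1] (-4) (by decide)
  have h6 : (-1 : ℤ) ≤ ((0) * x 0 + (4) * x 1 + (-1) * x 2) := k ![0, 4, -1] (-1) (by decide)
  have h7 : (-1 : ℤ) ≤ ((4) * x 0 + (0) * x 1 + (-1) * x 2) := k ![4, 0, -1] (-1) (by decide)
  omega

lemma finP : (P ∩ Lat 3).Finite := by
  refine ((finite_Icc (![0, 0, 0] : Fin 3 → ℤ) ![1, 1, 5]).image emb).subset ?_
  rintro u ⟨h1, h2⟩
  obtain ⟨x, rfl⟩ := (lat_iff u).1 h2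
  have := bounds x h1
  refine ⟨x, ⟨fun i => ?_, fun i => ?_⟩, rfl⟩ <;> fin_cases i <;> simp <;> omega

lemma len : 1 ≤ L P := by
  apply le_csInf
  · exact ⟨_, _, _, adj 0 1 ![-1, -1, 0] (by decide) (by decide), rfl⟩
  · rintro _ ⟨x, y, ⟨hx, hy, xy, -⟩, rfl⟩
    have f : (segment ℝ x y ∩ Lat 3).Finite :=
      finP.subset (inter_subset_inter_left _ ((convex_convexHull ℝ _).segment_subset
        (extremePoints_subset hx) (extremePoints_subset hy)))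
    obtain ⟨i, rfl⟩ := vert x hx
    obtain ⟨j, rfl⟩ := vert y hy
    have := (one_lt_ncard f).2 ⟨_, ⟨left_mem_segment ℝ _ _, emb_lat _⟩, _,
      ⟨right_mem_segment ℝ _ _, emb_lat _⟩, xy⟩
    omega

lemma memP (i : Fin 8) : emb (V i) ∈ P := subset_convexHull ℝ _ ⟨i, rfl⟩

lemma notIC : ¬ IntClosed P := by
  intro h
  have h1 := h 1 le_rfl
  have cv : Convex ℝ P := convex_convexHull ℝ _
  have a := cv (memP 0) (memP 6) (a := 1 / 2) (b := 1 / 2) (by norm_num) (by norm_num) (by norm_num)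
  have b := cv (memP 3) (memP 5) (a := 1 / 2) (b := 1 / 2) (by norm_num) (by norm_num) (by norm_num)
  have c := cv a b (a := 1 / 2) (b := 1 / 2) (by norm_num) (by norm_num) (by norm_num)
  have m : emb ![1, 1, 3] ∈ ((((1 : ℕ) : ℝ) + 1) • P) ∩ Lat 3 := by
    refine ⟨⟨_, c, ?_⟩, emb_lat _⟩
    funext i
    fin_cases i <;> simp [emb, V] <;> norm_num
  rw [← h1] at m
  obtain ⟨p, ⟨p1, p2⟩, q, ⟨q1, q2⟩, e⟩ := m
  obtain ⟨x, rfl⟩ := (lat_iff p).1 p2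
  obtain ⟨y, rfl⟩ := (lat_iff q).1 q2
  rw [Nat.cast_one, one_smul] at q1
  have hx := bounds x p1
  have hy := bounds y q1
  have e' : x + y = ![1, 1, 3] := emb_inj (by rw [← e]; funext i; simp [emb])
  have e0 : x 0 + y 0 = 1 := congrFun e' 0
  have e1 : x 1 + y 1 = 1 := congrFun e' 1
  have e2 : x 2 + y 2 = 3 := congrFun e' 2
  omega

lemma isLP : IsLatticePolytope P := by
  classical
  refine ⟨⟨Finset.univ.image fun i => emb (V i), ?_, by simp [P]⟩, ?_⟩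
  · intro u hu
    simp only [Finset.coe_image, Finset.coe_univ, image_univ] at hu
    obtain ⟨i, rfl⟩ := hu
    exact emb_lat _
  · rw [AffineSubspace.affineSpan_eq_top_iff_vectorSpan_eq_top_of_nonempty ℝ (R 3) (R 3) ⟨_, memP 0⟩,
      eq_top_iff]
    intro x _
    have e : x = x 0 • (emb (V 2) -ᵥ emb (V 0)) + x 1 • (emb (V 4) -ᵥ emb (V 0)) +
        x 2 • (emb (V 1) -ᵥ emb (V 0)) := by
      funext i
      fin_cases i <;> simp [emb, V]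
    rw [e]
    exact Submodule.add_mem _ (Submodule.add_mem _
      (Submodule.smul_mem _ _ (vsub_mem_vectorSpan ℝ (memP _) (memP _)))
      (Submodule.smul_mem _ _ (vsub_mem_vectorSpan ℝ (memP _) (memP _))))
      (Submodule.smul_mem _ _ (vsub_mem_vectorSpan ℝ (memP _) (memP _)))

lemma main : ∃ P : Set (R 3), IsLatticePolytope P ∧ Gamma P + 1 ≤ (L P : ℝ) ∧ ¬ IntClosed P := by
  refine ⟨P, isLP, ?_, notIC⟩
  have h1 := gamma
  have h2 : (1 : ℝ) ≤ (L P : ℝ) := by exact_mod_cast len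
  linarith

end Pool.Agent.H.MP_8f98a9_co
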